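import Pool.Agent.Lib.MP_b5021c_nt.IfaceK2

/-!
# Row LIK: `D + w_none E` is irreducible when `D` and `E` have no common factor
-/

namespace Pool.Agent.MP_b5021c_nt.Lik

open Polynomial Pool.Agent.B5
open scoped LaurentPolynomial

section Laurent

variable {B : Type} [CommRing B] [IsDomain B]

/-- Normal form of a nonzero Laurent polynomial. -/
theorem exists_normal (f : B[T;T⁻¹]) (hf : f ≠ 0) :
    ∃ (n : ℤ) (g : B[X]), g.coeff 0 ≠ 0 ∧ f = LaurentPolynomial.T n * toLaurent g := by
  obtain ⟨n, f', hf'⟩ := LaurentPolynomial.exists_T_pow f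
  have hff : f = LaurentPolynomial.T (-n) * toLaurent f' := by
    rw [hf', mul_comm, LaurentPolynomial.mul_T_assoc, add_neg_cancel, LaurentPolynomial.T_zero,
      mul_one]
  have hf0 : f' ≠ 0 := by
    rintro rfl
    rw [map_zero, mul_zero] at hff
    exact hf hff
  obtain ⟨q, hq, hnd⟩ := exists_eq_pow_rootMultiplicity_mul_and_not_dvd f' hf0 0
  rw [C_0, sub_zero] at hq hnd
  refine ⟨-n + (rootMultiplicity 0 f' : ℕ), q, ?_, ?_⟩
  · intro h
    exact hnd (X_dvd_iff.mpr h)
  · conv_lhs => rw [hff, hq]
    rw [map_mul, toLaurent_X_pow, ← mul_assoc, ← LaurentPolynomial.T_add]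

/-- Uniqueness of the normal form. -/
theorem normal_unique (n : ℤ) (p q : B[X]) (hp : p.coeff 0 ≠ 0) (hq : q.coeff 0 ≠ 0)
    (h : (LaurentPolynomial.T n : B[T;T⁻¹]) * toLaurent p = toLaurent q) : n = 0 := by
  by_contra hn
  rcases lt_or_gt_of_ne hn with h1 | h1
  · obtain ⟨k, hk⟩ : ∃ k : ℕ, -n = k := ⟨(-n).toNat, by omega⟩
    have hk0 : k ≠ 0 := by omega
    have h2 : toLaurent p = toLaurent (X ^ k * q) := by
      rw [map_mul, toLaurent_X_pow, ← h, ← mul_assoc, ← LaurentPolynomial.T_add, ← hk,
        neg_add_cancel, LaurentPolynomial.T_zero, one_mul]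
    have h3 := toLaurent_injective h2
    apply hp
    rw [h3, mul_coeff_zero, coeff_X_pow, if_neg (Ne.symm hk0), zero_mul]
  · obtain ⟨k, hk⟩ : ∃ k : ℕ, n = k := ⟨n.toNat, by omega⟩
    have hk0 : k ≠ 0 := by omega
    have h2 : toLaurent (X ^ k * p) = toLaurent q := by
      rw [map_mul, toLaurent_X_pow, ← h, hk]
    have h3 := toLaurent_injective h2
    apply hq
    rw [← h3, mul_coeff_zero, coeff_X_pow, if_neg (Ne.symm hk0), zero_mul]

/-- A linear polynomial with coprime coefficients is irreducible. -/
theorem irr (d e : B) (hd : d ≠ 0) (he : e ≠ 0) (hc : ∀ h, h ∣ d → h ∣ e → IsUnit h) :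
    Irreducible (LaurentPolynomial.C d + LaurentPolynomial.C e * LaurentPolynomial.T 1 :
      B[T;T⁻¹]) := by
  have hF : (LaurentPolynomial.C d + LaurentPolynomial.C e * LaurentPolynomial.T 1 : B[T;T⁻¹]) =
      toLaurent (C e * X + C d) := by
    rw [map_add, map_mul, toLaurent_C, toLaurent_C, toLaurent_X]
    ring
  have hdeg : (C e * X + C d : B[X]).natDegree = 1 := natDegree_linear he
  have hc0 : (C e * X + C d : B[X]).coeff 0 = d := by simp
  have hc1 : (C e * X + C d : B[X]).coeff 1 = e := by simp
  have hne : (C e * X + C d : B[X]) ≠ 0 := by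
    intro h
    rw [h, coeff_zero] at hc0
    exact hd hc0.symm
  rw [hF]
  -- general splitting
  have key : ∀ (G H : B[T;T⁻¹]) (F : B[X]), F.coeff 0 ≠ 0 → toLaurent F = G * H →
      ∃ (m : ℤ) (g h : B[X]), G = LaurentPolynomial.T m * toLaurent g ∧
        H = LaurentPolynomial.T (-m) * toLaurent h ∧ F = g * h := by
    intro G H F hF0 hGH
    have hFne : (toLaurent F : B[T;T⁻¹]) ≠ 0 := by
      rw [toLaurent_ne_zero]
      rintro rfl
      exact hF0 (coeff_zero 0)
    have hG : G ≠ 0 := by
      rintro rfl
      rw [zero_mul] at hGH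
      exact hFne hGH
    have hH : H ≠ 0 := by
      rintro rfl
      rw [mul_zero] at hGH
      exact hFne hGH
    obtain ⟨m, g, hg0, hg⟩ := exists_normal G hG
    obtain ⟨l, h, hh0, hh⟩ := exists_normal H hH
    have h1 : (LaurentPolynomial.T (m + l) : B[T;T⁻¹]) * toLaurent (g * h) = toLaurent F := by
      rw [hGH, hg, hh, LaurentPolynomial.T_add, map_mul]
      ring
    have hgh : (g * h).coeff 0 ≠ 0 := by
      rw [mul_coeff_zero]
      exact mul_ne_zero hg0 hh0
    have h2 := normal_unique (m + l) (g * h) F hgh hF0 h1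
    have h3 : l = -m := by omega
    rw [h2, LaurentPolynomial.T_zero, one_mul] at h1
    exact ⟨m, g, h, hg, by rw [← h3]; exact hh, (toLaurent_injective h1).symm⟩
  have hunitT : ∀ (m : ℤ) (g : B[X]), IsUnit g →
      IsUnit ((LaurentPolynomial.T m : B[T;T⁻¹]) * toLaurent g) := fun m g hg =>
    (LaurentPolynomial.isUnit_T m).mul (hg.map toLaurent)
  have hcase : ∀ g h : B[X], (C e * X + C d : B[X]) = g * h → g.natDegree = 0 → IsUnit g := by
    intro g h hgh h0
    obtain ⟨c, hgc⟩ : ∃ c, g = C c := ⟨g.coeff 0, eq_C_of_natDegree_eq_zero h0⟩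
    have h1 : c ∣ d := by
      rw [← hc0, hgh, hgc, coeff_C_mul]
      exact dvd_mul_right _ _
    have h2 : c ∣ e := by
      rw [← hc1, hgh, hgc, coeff_C_mul]
      exact dvd_mul_right _ _
    rw [hgc]
    exact (hc c h1 h2).map C
  constructor
  · intro hu
    obtain ⟨v, hv⟩ := isUnit_iff_exists_inv.mp hu
    obtain ⟨m, g, h, hg, -, h1⟩ := key _ v 1 (by simp) (by rw [map_one]; exact hv.symm)
    have hm : (LaurentPolynomial.T m : B[T;T⁻¹]) * toLaurent g = toLaurent (C e * X + C d) := hg.symm
    have hg0 : g.coeff 0 ≠ 0 := by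
      intro h0
      have h2 : (1 : B[X]).coeff 0 = 0 := by rw [h1, mul_coeff_zero, h0, zero_mul]
      simp at h2
    have hm0 := normal_unique m g _ hg0 (by rw [hc0]; exact hd) hm
    rw [hm0, LaurentPolynomial.T_zero, one_mul] at hm
    have h3 := toLaurent_injective hm
    have h4 : IsUnit g := IsUnit.of_mul_eq_one h h1.symm
    have h5 := natDegree_eq_zero_of_isUnit h4
    rw [h3, hdeg] at h5
    exact one_ne_zero h5
  · intro G H hGH
    obtain ⟨m, g, h, hg, hh, h1⟩ := key G H _ (by rw [hc0]; exact hd) hGH
    have hg0 : g ≠ 0 := by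
      rintro rfl
      rw [zero_mul] at h1
      exact hne h1
    have hh0 : h ≠ 0 := by
      rintro rfl
      rw [mul_zero] at h1
      exact hne h1
    have h2 : g.natDegree + h.natDegree = 1 := by
      rw [← natDegree_mul hg0 hh0, ← h1, hdeg]
    have h3 : g.natDegree = 0 ∨ h.natDegree = 0 := by omega
    rcases h3 with h4 | h4
    · left
      rw [hg]
      exact hunitT m g (hcase g h h1 h4)
    · right
      rw [hh]
      exact hunitT (-m) h (hcase h g (by rw [h1, mul_comm]) h4)

end Laurent

section Iso

variable {ι : Type}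

/-- Splitting off the coordinate `none`. -/
def spl : (Option ι → ℤ) ≃+ ℤ × (ι → ℤ) where
  toFun f := (f none, fun i => f (some i))
  invFun p := fun o => o.elim p.1 p.2
  left_inv f := by
    funext o
    cases o <;> rfl
  right_inv p := rfl
  map_add' f g := rfl

/-- The group algebra in one more port is a ring of Laurent polynomials. -/
noncomputable def psi : A (Option ι → ℤ) ≃+* LaurentPolynomial (A (ι → ℤ)) :=
  (AddMonoidAlgebra.mapDomainRingEquiv R spl).trans AddMonoidAlgebra.curryRingEquiv

theorem psi_single (a : Option ι → ℤ) (r : R) :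
    psi (AddMonoidAlgebra.single a r) =
      AddMonoidAlgebra.single (a none) (AddMonoidAlgebra.single (fun i => a (some i)) r) := by
  unfold psi
  rw [RingEquiv.trans_apply]
  have h : (AddMonoidAlgebra.mapDomainRingEquiv R spl) (AddMonoidAlgebra.single a r) =
      AddMonoidAlgebra.single (spl a) r := by
    simp
  rw [h]
  exact AddMonoidAlgebra.curryRingEquiv_single _ _ _

end Iso

variable {ι : Type} [Fintype ι] [DecidableEq ι]

theorem sum_option (f : Finset (Option ι) → LaurentPolynomial (A (ι → ℤ))) :
    ∑ S : Finset (Option ι), f S =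
      ∑ S : Finset ι, f (S.map Function.Embedding.some) + ∑ S : Finset ι, f (Finset.insertNone S) := by
  rw [← Finset.sum_filter_not_add_sum_filter Finset.univ (fun S : Finset (Option ι) => none ∈ S)]
  congr 1
  · refine Finset.sum_bij' (fun S _ => Finset.eraseNone S)
      (fun S _ => S.map Function.Embedding.some) ?_ ?_ ?_ ?_ ?_
    · intro S _
      exact Finset.mem_univ _
    · intro S _
      simp
    · intro S hS
      rw [Finset.mem_filter] at hS
      rw [Finset.map_some_eraseNone]
      exact Finset.erase_eq_of_notMem hS.2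
    · intro S _
      exact Finset.eraseNone_map_some S
    · intro S hS
      rw [Finset.mem_filter] at hS
      rw [Finset.map_some_eraseNone, Finset.erase_eq_of_notMem hS.2]
  · refine Finset.sum_bij' (fun S _ => Finset.eraseNone S)
      (fun S _ => Finset.insertNone S) ?_ ?_ ?_ ?_ ?_
    · intro S _
      exact Finset.mem_univ _
    · intro S _
      simp
    · intro S hS
      rw [Finset.mem_filter] at hS
      rw [Finset.insertNone_eraseNone]
      exact Finset.insert_eq_of_mem hS.2
    · intro S _
      exact Finset.eraseNone_insertNone S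
    · intro S hS
      rw [Finset.mem_filter] at hS
      rw [Finset.insertNone_eraseNone, Finset.insert_eq_of_mem hS.2]

theorem psi_join (D E : Finset ι → ℤ[X]) :
    psi (toA (join D E)) =
      LaurentPolynomial.C (toA D) + LaurentPolynomial.C (toA E) * LaurentPolynomial.T 1 := by
  have h1 : psi (toA (join D E)) = ∑ S : Finset (Option ι),
      AddMonoidAlgebra.single (ind S none)
        (AddMonoidAlgebra.single (fun i => ind S (some i)) (toLaurent (join D E S))) := by
    unfold toA
    rw [map_sum]
    exact Finset.sum_congr rfl fun S _ => psi_single _ _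
  rw [h1, sum_option]
  congr 1
  · unfold toA
    rw [map_sum]
    refine Finset.sum_congr rfl fun S _ => ?_
    have h2 : ind (S.map Function.Embedding.some) (none : Option ι) = 0 := by
      simp [ind]
    have h3 : (fun i => ind (S.map Function.Embedding.some) (some i)) = ind S := by
      funext i
      simp [ind]
    have h4 : join D E (S.map Function.Embedding.some) = D S := by
      simp [join]
    rw [h2, h3, h4]
    rfl
  · unfold toA
    rw [map_sum, Finset.sum_mul]
    refine Finset.sum_congr rfl fun S _ => ?_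
    have h2 : ind (Finset.insertNone S) (none : Option ι) = 1 := by
      simp [ind]
    have h3 : (fun i => ind (Finset.insertNone S) (some i)) = ind S := by
      funext i
      simp [ind]
    have h4 : join D E (Finset.insertNone S) = E S := by
      simp [join]
    rw [h2, h3, h4, ← LaurentPolynomial.single_eq_C_mul_T]

theorem lik (_ : TcoS) : LikS := by
  intro ι _ _ D E hD hE hc
  have h : Irreducible (psi (toA (join D E))) := by
    rw [psi_join]
    exact irr (toA D) (toA E) hD hE hc
  exact (MulEquiv.irreducible_iff (psi (ι := ι))).mp h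

end Pool.Agent.MP_b5021c_nt.Lik
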