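import Pool.Agent.Lib.MP_b5021c_nt.IfaceK1

/-!
# Row BPL: limits of BP sequences with `t_n → τ > 1`
-/

namespace Pool.Agent.MP_b5021c_nt.Bpl

open Filter Topology

/-- The square of `c` is at most `t^2 - 1`. -/
theorem sq_le_of_bp {a : ℕ → ℤ} {c t : ℝ} {h : ℕ → ℝ} (H : BP a c t h) : c ^ 2 ≤ t ^ 2 - 1 := by
  obtain ⟨ht, -, -, hle⟩ := H
  have hpos : 0 < t ^ 2 - 1 := by nlinarith
  have h0 : 0 ≤ ∑' j, h j ^ 2 := tsum_nonneg fun j => sq_nonneg _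
  have h1 : c ^ 2 / (t ^ 2 - 1) ≤ 1 := by linarith
  rwa [div_le_one hpos] at h1

/-- Partial sums. -/
theorem partial_le_of_bp {a : ℕ → ℤ} {c t : ℝ} {h : ℕ → ℝ} (H : BP a c t h) (J : ℕ) :
    c ^ 2 / (t ^ 2 - 1) + ∑ j ∈ Finset.range J, h j ^ 2 ≤ 1 := by
  obtain ⟨-, -, hs, hle⟩ := H
  have := hs.sum_le_tsum (Finset.range J) (fun j _ => sq_nonneg (h j))
  linarith

theorem bpl : BplS := by
  intro a c t h b τ H ht hτ hab
  -- bound for `c`
  obtain ⟨T, hT⟩ : ∃ T : ℝ, ∀ n, |t n| ≤ T := by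
    obtain ⟨T, hT⟩ := ht.abs.bddAbove_range
    exact ⟨T, fun n => hT ⟨n, rfl⟩⟩
  have hc : ∀ n, c n ∈ Set.Icc (-T) T := by
    intro n
    have h1 := sq_le_of_bp (H n)
    have h2 : |c n| ≤ |t n| := by
      apply sq_le_sq.mp
      linarith
    exact abs_le.mp (h2.trans (hT n))
  obtain ⟨c', -, φ, hφ, hcφ⟩ := isCompact_Icc.tendsto_subseq hc
  have htφ : Tendsto (t ∘ φ) atTop (𝓝 τ) := ht.comp hφ.tendsto_atTop
  set h' : ℕ → ℝ := fun j => (b j : ℝ) - c' * τ ^ j with hh'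
  have hlim : ∀ j, Tendsto (fun n => h (φ n) j) atTop (𝓝 (h' j)) := by
    intro j
    have h1 : Tendsto (fun n => (a (φ n) j : ℝ) - c (φ n) * t (φ n) ^ j) atTop (𝓝 (h' j)) := by
      apply Tendsto.sub
      · have h2 : ∀ᶠ n in atTop, a (φ n) j = b j := hφ.tendsto_atTop.eventually (hab j)
        exact tendsto_const_nhds.congr' (h2.mono fun n hn => by simp only [hn])
      · exact hcφ.mul (htφ.pow j)
    refine h1.congr fun n => ?_
    have := (H (φ n)).2.1 j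
    linarith
  have hτ2 : 0 < τ ^ 2 - 1 := by nlinarith
  have hpart : ∀ J : ℕ, c' ^ 2 / (τ ^ 2 - 1) + ∑ j ∈ Finset.range J, h' j ^ 2 ≤ 1 := by
    intro J
    have h1 : Tendsto (fun n => c (φ n) ^ 2 / (t (φ n) ^ 2 - 1) + ∑ j ∈ Finset.range J, h (φ n) j ^ 2) atTop
        (𝓝 (c' ^ 2 / (τ ^ 2 - 1) + ∑ j ∈ Finset.range J, h' j ^ 2)) := by
      apply Tendsto.add
      · exact (hcφ.pow 2).div ((htφ.pow 2).sub_const 1) hτ2.ne'
      · exact tendsto_finsetSum _ fun j _ => (hlim j).pow 2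
    exact le_of_tendsto' h1 fun n => partial_le_of_bp (H (φ n)) J
  have hbd : ∀ J : ℕ, ∑ j ∈ Finset.range J, h' j ^ 2 ≤ 1 - c' ^ 2 / (τ ^ 2 - 1) := fun J => by
    linarith [hpart J]
  have hsum : Summable fun j => h' j ^ 2 := summable_of_sum_range_le (fun j => sq_nonneg _) hbd
  refine ⟨c', h', hτ, fun j => ?_, hsum, ?_⟩
  · simp only [hh']
    ring
  · have := Real.tsum_le_of_sum_range_le (fun j => sq_nonneg (h' j)) hbd
    linarith

end Pool.Agent.MP_b5021c_nt.Bpl
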