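import Pool.Agent.Lib.MP_b5021c_nt.IfaceL1

/-!
# Row JPN: numerical induction step, class `P`
-/

namespace Pool.Agent.B5.K.H79

open Pool.Agent.B5

theorem one_add_sum_le_prod {ι : Type*} (s : Finset ι) (x : ι → ℝ) (hx : ∀ i ∈ s, 1 ≤ x i) :
    1 + ∑ i ∈ s, (x i - 1) ≤ ∏ i ∈ s, x i ∧ 0 ≤ ∑ i ∈ s, (x i - 1) := by
  classical
  induction s using Finset.induction_on with
  | empty => simp
  | insert a s ha ih =>
    rw [Finset.sum_insert ha, Finset.prod_insert ha]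
    have h1 : 1 ≤ x a := hx a (Finset.mem_insert_self _ _)
    have h2 := ih (fun i hi => hx i (Finset.mem_insert_of_mem hi))
    constructor
    · nlinarith [mul_nonneg (sub_nonneg.2 h1) h2.2]
    · linarith [h2.2]

theorem sum_bVL_le {m : ℕ} (N' : Fin m → ℝ) (h : ∀ i, Real.sqrt 3 ≤ N' i) :
    1 ≤ ∏ i, N' i ∧ ∑ i, bVL (N' i) ≤ 24 * (∏ i, N' i - 1) := by
  have h3 : (1.7 : ℝ) ≤ Real.sqrt 3 := by
    apply Real.le_sqrt_of_sq_le
    norm_num
  have h1 : ∀ i ∈ Finset.univ, (1 : ℝ) ≤ N' i := fun i _ => by linarith [h i]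
  obtain ⟨ha, hb⟩ := one_add_sum_le_prod Finset.univ N' h1
  refine ⟨by linarith, ?_⟩
  have hc : ∀ i, bVL (N' i) = 24 * (N' i - 1) := fun i => by
    unfold bVL
    apply max_eq_right
    linarith [h i]
  simp only [hc]
  rw [← Finset.mul_sum]
  linarith

theorem jpn : JPNS := by
  refine ⟨?_, ?_, ?_⟩
  · intro θ θ' l h1 h2 h3
    by_cases hc : θ / 2 ≤ θ'
    · have hl : (l : ℝ) ≤ 4 := by
        by_contra hn
        push Not at hn
        nlinarith
      linarith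
    · push Not at hc
      have hl0 : (0 : ℝ) ≤ l := Nat.cast_nonneg l
      have hl : (l : ℝ) ≤ 2 * θ := by nlinarith
      linarith
  · intro θ l h1 h2
    linarith
  · intro θ m N' l h1 h2 h3 h4
    obtain ⟨ha, hb⟩ := sum_bVL_le N' h2
    have hl0 : (0 : ℝ) ≤ l := Nat.cast_nonneg l
    have hl : (l : ℝ) ≤ 2 * θ := by nlinarith
    linarith

end Pool.Agent.B5.K.H79
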